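import Pool.Agent.K7.H32.SB.Full

/-!
# The number of special braids in `B_n`

Special braids are the elements obtained from `1` by the operation
`a ∧ b = a · sh(b) · σ_1 · sh(a)⁻¹` on the braid group on infinitely many strands.  The subgroup
`B_n` contains exactly `1, 2, 4, 10` special braids for `n = 1, 2, 3, 4`, and it contains
infinitely many for every `n ≥ 5`.
-/

set_option autoImplicit false

namespace Pool.Agent.Results.MP_c15459_al.SpecialBraidCountExact

open Pool.Agent.K7.H32.SB

/-- The number of special braids in `B_n` is `1, 2, 4, 10` for `n = 1, 2, 3, 4`, and it is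
infinite for every `n ≥ 5`. -/
theorem result :
    (SpecialIn 1).ncard = 1 ∧ (SpecialIn 2).ncard = 2 ∧ (SpecialIn 3).ncard = 4 ∧
      (SpecialIn 4).ncard = 10 ∧ ∀ n : ℕ, 5 ≤ n → (SpecialIn n).Infinite :=
  ⟨count1, count2, count3, count4_exact, count5⟩

end Pool.Agent.Results.MP_c15459_al.SpecialBraidCountExact
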